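import Pool.Agent.Helper15.AF.Goals2
import Pool.Agent.Helper79.DT.TOA

/-!
# Packet AF-TOM (MP_34c247_lc): the generator for a given partition
-/

namespace Pool.Agent.Helper51.AF

open Pool.Agent.Helper51.ZP Pool.Agent.Helper78.DT Pool.Agent.Helper78.JT
open Pool.Agent.Helper15.AF
open scoped Classical

theorem errI_nonneg (P r s t ρ D kV J : ℕ) : 0 ≤ errI P r s t ρ D kV J := by
  unfold errI
  positivity

theorem errP_nonneg {P m e D J R r s t l : ℕ} {η κ δ μ : ℝ} (hδ : 0 ≤ δ) (hη : 0 < η) (hκ : 0 < κ)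
    (hμ : 0 ≤ μ) : 0 ≤ errP P m e D J R r s t l η κ δ μ := by
  unfold errP
  positivity

theorem Qk_pos {kk : ℕ} (h : 1 ≤ kk) : 0 < Qk kk := by
  unfold Qk
  have : 2 ^ 1 ≤ 2 ^ kk := Nat.pow_le_pow_right (by norm_num) h
  omega

theorem Zl_pos {R d : ℕ → ℕ} : ∀ l : ℕ, (∀ j < l, 0 < R j) → 0 < Zl R d l
  | 0, _ => Nat.one_pos
  | l + 1, h => Nat.mul_pos (Zl_pos l fun j hj => h j (by omega)) (Nat.pow_pos (h l (by omega)))

/-- The seeds of one part. -/
def sE (q P : ℕ) : Fin (q * (q * P)) ≃ Fin q × Fin q × Fin P :=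
  (finProdFinEquiv (m := q) (n := q * P)).symm.trans
    ((Equiv.refl (Fin q)).prodCongr (finProdFinEquiv (m := q) (n := P)).symm)

theorem sE_1 (q P : ℕ) (x : Fin (q * (q * P))) : ((sE q P x).1 : ℕ) = x / (q * P) := rfl

theorem sE_2 (q P : ℕ) (x : Fin (q * (q * P))) : ((sE q P x).2.1 : ℕ) = x / P % q := by
  change (x : ℕ) % (q * P) / P = x / P % q
  exact Nat.mod_mul_left_div_self _ _ _

theorem sE_3 (q P : ℕ) (x : Fin (q * (q * P))) : ((sE q P x).2.2 : ℕ) = x % P := by
  change (x : ℕ) % (q * P) % P = x % P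
  exact Nat.mod_mul_left_mod _ _ _

/-- the error for a good string and a good pool -/
theorem good_errm (hFom : FomStmt) (hHym : HymStmt) (n K t e P q r ρ s D m J l R : ℕ)
    (η κ δ μ : ℝ) (H : (Fin r → Bool) → (Fin ρ → ZMod 2) → Bool)
    (hP : P.Prime) (hq : 0 < q) (hn : n ≤ 2 ^ e) (hδ : 0 ≤ δ) (hμ : 0 ≤ μ) (hD : r * (t * s) ≤ D)
    (hη : 0 < η) (hη1 : η ≤ 1)
    (hκ : 0 < κ) (hs : (2 / η) ^ t ≤ s * (κ / 2 ^ t) ^ η) (h : ℕ → ℕ) (hh : ∀ v, h v < K)
    (f : Fin r → DL (Fin n)) (a : Fin ρ → Fin n → ZMod 2)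
    (hf : ∀ i, ∀ g ∈ f i, ∀ j < K, (g.1.filter fun p => h p.1 = j).card ≤ t)
    (Y : ℕ → Bool) (z : ℕ → ℕ)
    (hY : ∀ j : Fin K, GoodY Y m P e D μ
      (fun i v => if (⟨h v, hh v⟩ : Fin K) = j then a i v else 0))
    (hz : ∀ (j : Fin K) (b : Bool),
      GoodA Y m P e q t s κ ((l + 1) * δ + 2 ^ m / R) (Fb H b)
        (fun i v => if (⟨h v, hh v⟩ : Fin K) = j then a i v else 0) z ∧
      GoodB Y m P e q t s D κ ((l + 1) * δ + 2 ^ m / R + 1 / J) μ (Fb H b)
        (fun i v => if (⟨h v, hh v⟩ : Fin K) = j then a i v else 0) z) :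
    |pr (fun y : Fin K → Fin (q * (q * P)) =>
        H (fun i => ev (f i) fun v => cnm Y m P e q z h (ext y) v)
          (fun i => dot (a i) fun v => cnm Y m P e q z h (ext y) v) = true) -
      pr (fun x : Fin n → Bool => H (fun i => ev (f i) x) (fun i => dot (a i) x) = true)| ≤
      K * errP P m e D J R r s t l η κ δ μ := by
  have : Nonempty (Fin q × Fin q × Fin P) := ⟨(⟨0, hq⟩, ⟨0, hq⟩, ⟨0, hP.pos⟩)⟩
  have h1 := hHym n K t r ρ (Fin q × Fin q × Fin P)
    (fun p v => gb Y m P e (z p.1) (z p.2.1) p.2.2 v) (errP P m e D J R r s t l η κ δ μ) H a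
    (fun v => ⟨h v, hh v⟩) (errP_nonneg hδ hη hκ hμ)
    (fun j g c hw => by
      have h2 := hFom n P q r ρ t s D m e η κ ((l + 1) * δ + 2 ^ m / R)
        ((l + 1) * δ + 2 ^ m / R + 1 / J) μ H Y z
        (fun i v => if (⟨h v, hh v⟩ : Fin K) = j then a i v else 0) hP hq hη hη1 hκ hs hn hμ
        (by positivity) (by positivity) hD (hY j) (hz j) g c hw
      refine h2.trans (le_of_eq ?_)
      unfold errP
      ring) f (by
      intro i g hgf j
      refine le_trans (Finset.card_le_card ?_) (hf i g hgf j j.2)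
      intro p hp
      rw [Finset.mem_filter] at hp ⊢
      exact ⟨hp.1, congrArg Fin.val hp.2⟩)
  have h2 := pr_equiv (Equiv.piCongrRight fun _ : Fin K => sE q P)
    (fun y : Fin K → Fin q × Fin q × Fin P => H (fun i => ev (f i) (fun v =>
      gb Y m P e (z (y ⟨h v, hh v⟩).1) (z (y ⟨h v, hh v⟩).2.1) (y ⟨h v, hh v⟩).2.2 v))
      (fun i => dot (a i) (fun v =>
      gb Y m P e (z (y ⟨h v, hh v⟩).1) (z (y ⟨h v, hh v⟩).2.1) (y ⟨h v, hh v⟩).2.2 v)) = true)
  rw [← h2] at h1
  convert h1 using 3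
  refine pr_congr fun y => ?_
  have h3 : (fun v : Fin n => cnm Y m P e q z h (ext y) v) = fun v : Fin n =>
      gb Y m P e (z (((Equiv.piCongrRight fun _ : Fin K => sE q P) y) ⟨h v, hh v⟩).1)
        (z (((Equiv.piCongrRight fun _ : Fin K => sE q P) y) ⟨h v, hh v⟩).2.1)
        (((Equiv.piCongrRight fun _ : Fin K => sE q P) y) ⟨h v, hh v⟩).2.2 v := by
    funext v
    have h4 : ext y (h v) = (y ⟨h v, hh v⟩ : ℕ) := by
      unfold ext
      rw [dif_pos (hh v)]
    unfold cnm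
    rw [h4, Equiv.piCongrRight_apply, Pi.map_apply, sE_1, sE_2, sE_3]
  rw [h3]

theorem tom (hVvc : VvcStmt) (hGyp : GypStmt) (hGap : Pool.Agent.Helper15.AF.GapStmt) (hGbp : GbpStmt) (hFom : FomStmt)
    (hHym : HymStmt) : TomStmt := by
  intro n K t e P q r ρ s D m kk kV T J l R d k M η κ δ ε μ H hP hK hq hn hδ hε hμ hJ hkV hkk hT1
    hT2 hV hD hM0 hM hj hη hη1 hκ hs h hh f a hf
  have hR : ∀ j < l + 1, 0 < R j := fun j hl => (hj j (by omega)).1.pos
  have hZ : 0 < Zl R d (l + 1) := Zl_pos (l + 1) hR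
  have hQ := Qk_pos hkk
  have : Nonempty (Fin (Zl R d (l + 1))) := ⟨⟨0, hZ⟩⟩
  have : Nonempty (Fin (Qk kk) × Fin (Qk kk)) := ⟨(⟨0, hQ⟩, ⟨0, hQ⟩)⟩
  -- the restricted forms
  set aj : Fin K → Fin ρ → Fin n → ZMod 2 :=
    fun j i v => if (⟨h v, hh v⟩ : Fin K) = j then a i v else 0 with haj
  have hVV : ∀ j, (VV P e D μ (aj j)).card ≤ kV := fun j =>
    hVvc P e D n ρ kV μ (aj j) hP hn hkV hV
  -- the bad strings
  set BY : Fin (Qk kk) × Fin (Qk kk) → Prop := fun p =>
    ∃ j ∈ (Finset.univ : Finset (Fin K)), ¬ GoodY (Yf kk p.1 p.2) m P e D μ (aj j) with hBY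
  have hBY1 : pr BY ≤ K * errY P m ρ D kV T (Qk kk) := by
    refine (pr_exists_le _ _).trans ?_
    refine (Finset.sum_le_card_nsmul _ _ (errY P m ρ D kV T (Qk kk)) fun j _ =>
      hGyp kk m P e D n ρ kV T μ (aj j) hkk hT1 hT2 (hVV j)).trans (le_of_eq ?_)
    rw [Finset.card_univ, Fintype.card_fin, nsmul_eq_mul]
  -- the bad pools
  set X : ℝ := (l + 1) * (errI P r s t ρ D kV J * ε) with hX
  have hX0 : 0 ≤ X := mul_nonneg (by positivity) (mul_nonneg (errI_nonneg _ _ _ _ _ _ _ _) hε)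
  set BZ : (ℕ → Bool) → Fin (Zl R d (l + 1)) → Prop := fun Y θ =>
    ∃ j ∈ (Finset.univ : Finset (Fin K)),
      ((¬ GoodA Y m P e q t s κ ((l + 1) * δ + 2 ^ m / R l) (Fb H false) (aj j)
          fun i => ch R d θ i (l + 1)) ∨
        (¬ GoodA Y m P e q t s κ ((l + 1) * δ + 2 ^ m / R l) (Fb H true) (aj j)
          fun i => ch R d θ i (l + 1))) ∨
      ((¬ GoodB Y m P e q t s D κ ((l + 1) * δ + 2 ^ m / R l + 1 / J) μ (Fb H false) (aj j)
          fun i => ch R d θ i (l + 1)) ∨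
        (¬ GoodB Y m P e q t s D κ ((l + 1) * δ + 2 ^ m / R l + 1 / J) μ (Fb H true) (aj j)
          fun i => ch R d θ i (l + 1))) with hBZ
  have hBZ1 : ∀ Y : ℕ → Bool, (∀ j, GoodY Y m P e D μ (aj j)) → pr (BZ Y) ≤ K * (4 * X) := by
    intro Y hY
    refine (pr_exists_le _ _).trans ?_
    refine (Finset.sum_le_card_nsmul _ _ (4 * X) fun j _ => ?_).trans (le_of_eq ?_)
    · refine (pr_or_le _ _).trans ?_
      refine (add_le_add (pr_or_le _ _) (pr_or_le _ _)).trans ?_
      have g1 := hGap Y m P e q r ρ n t s D kV J l R d k M κ δ ε (Fb H false) (aj j) hP.pos hq hJ hδ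
        hε hM0 hM hj
      have g2 := hGap Y m P e q r ρ n t s D kV J l R d k M κ δ ε (Fb H true) (aj j) hP.pos hq hJ hδ
        hε hM0 hM hj
      have g3 := hGbp Y m P e q r ρ n t s D kV J l R d k M κ δ ε μ (Fb H false) (aj j) hP.pos hq hJ
        hδ hε hD (hY j) (hVV j) hM0 hM hj
      have g4 := hGbp Y m P e q r ρ n t s D kV J l R d k M κ δ ε μ (Fb H true) (aj j) hP.pos hq hJ
        hδ hε hD (hY j) (hVV j) hM0 hM hj
      have := add_le_add (add_le_add g1 g2) (add_le_add g3 g4)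
      refine this.trans (le_of_eq ?_)
      rw [hX]
      ring
    · rw [Finset.card_univ, Fintype.card_fin, nsmul_eq_mul]
  set c : ℝ := pr (fun x : Fin n → Bool => H (fun i => ev (f i) x) (fun i => dot (a i) x) = true)
    with hc
  set F : Fin (Qk kk) × Fin (Qk kk) → Fin (Zl R d (l + 1)) → ℝ := fun p θ =>
    pr (fun y : Fin K → Fin (q * (q * P)) =>
        H (fun i => ev (f i) fun v => cnm (Yf kk p.1 p.2) m P e q
            (fun x => ch R d θ x (l + 1)) h (ext y) v)
          (fun i => dot (a i) fun v => cnm (Yf kk p.1 p.2) m P e q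
            (fun x => ch R d θ x (l + 1)) h (ext y) v) = true) with hF
  have h1 : pr (fun z : (Fin (Qk kk) × Fin (Qk kk)) × Fin (Zl R d (l + 1)) ×
      (Fin K → Fin (q * (q * P))) =>
      H (fun i => ev (f i) fun v => cnm (Yf kk z.1.1 z.1.2) m P e q
            (fun x => ch R d z.2.1 x (l + 1)) h (ext z.2.2) v)
          (fun i => dot (a i) fun v => cnm (Yf kk z.1.1 z.1.2) m P e q
            (fun x => ch R d z.2.1 x (l + 1)) h (ext z.2.2) v) = true) =
      av fun p => av fun θ => F p θ := by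
    unfold pr
    rw [av_prod]
    refine av_congr fun p => ?_
    rw [av_prod]
    rfl
  rw [h1]
  have h2 : (av fun p => av fun θ => F p θ) - c = av fun p => av fun θ => F p θ - c := by
    have : ∀ p, (av fun θ => F p θ - c) = (av fun θ => F p θ) - c := fun p => by
      rw [av_sub, av_const]
    rw [av_congr this, av_sub, av_const]
  rw [h2]
  have hE := errP_nonneg (P := P) (m := m) (e := e) (D := D) (J := J) (R := R l) (r := r) (s := s)
    (t := t) (l := l) hδ.le hη hκ hμ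
  set E : ℝ := errP P m e D J (R l) r s t l η κ δ μ with hEdef
  have hKE : 0 ≤ (K : ℝ) * E := mul_nonneg (Nat.cast_nonneg _) hE
  have hle1 : ∀ p θ, |F p θ - c| ≤ 1 := fun p θ =>
    Pool.Agent.Helper79.DT.abs_pr_sub_le _ _
  have hin : ∀ p, |av fun θ => F p θ - c| ≤
      (if BY p then (1 : ℝ) else 0) + (K * (4 * X) + K * E) := by
    intro p
    by_cases hp : BY p
    · rw [if_pos hp]
      have : |av fun θ => F p θ - c| ≤ 1 :=
        (abs_av_le _).trans (av_le_of_le zero_le_one fun θ => hle1 p θ)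
      have : 0 ≤ (K : ℝ) * (4 * X) := by positivity
      linarith
    · rw [if_neg hp, zero_add]
      have hY : ∀ j, GoodY (Yf kk p.1 p.2) m P e D μ (aj j) := by
        intro j
        by_contra hcon
        exact hp ⟨j, Finset.mem_univ j, hcon⟩
      calc |av fun θ => F p θ - c| ≤ av fun θ => |F p θ - c| := abs_av_le _
        _ ≤ av fun θ : Fin (Zl R d (l + 1)) =>
            (if BZ (Yf kk p.1 p.2) θ then (1 : ℝ) else 0) + K * E := by
          refine av_mono fun θ => ?_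
          by_cases hg : BZ (Yf kk p.1 p.2) θ
          · rw [if_pos hg]
            have := hle1 p θ
            linarith
          · rw [if_neg hg, zero_add]
            refine good_errm hFom hHym n K t e P q r ρ s D m J l (R l) η κ δ μ H hP hq hn hδ.le hμ
              hD hη hη1 hκ hs h hh f a hf (Yf kk p.1 p.2) (fun i => ch R d θ i (l + 1)) hY ?_
            intro j b
            have hj' : ¬ _ := fun hcon => hg ⟨j, Finset.mem_univ j, hcon⟩
            simp only [not_or, not_not] at hj'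
            cases b
            · exact ⟨hj'.1.1, hj'.2.1⟩
            · exact ⟨hj'.1.2, hj'.2.2⟩
        _ = pr (BZ (Yf kk p.1 p.2)) + K * E := by
          rw [av_add, av_const]
          congr 1
          unfold pr
          refine av_congr fun θ => ?_
          congr
        _ ≤ _ := by
          have := hBZ1 _ hY
          linarith
  calc |av fun p => av fun θ => F p θ - c| ≤ av fun p => |av fun θ => F p θ - c| := abs_av_le _
    _ ≤ av fun p => (if BY p then (1 : ℝ) else 0) + (K * (4 * X) + K * E) := av_mono hin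
    _ = pr BY + (K * (4 * X) + K * E) := by
      rw [av_add, av_const]
      congr 1
      unfold pr
      refine av_congr fun θ => ?_
      congr
    _ ≤ _ := by linarith

end Pool.Agent.Helper51.AF
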