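import Pool.Agent.Helper15.AF.Goals3
import Pool.Agent.Helper3.JT.TLJ
import Pool.Agent.Helper56.JT.PJ12
import Pool.Agent.Helper79.JT.PJ4
import Pool.Agent.Helper58.JT.PJ6

/-!
# Packet AF-PMA (MP_34c247_lc): the choice of the parameters
-/

namespace Pool.Agent.Helper51.AF

open Pool.Agent.Helper51.ZP Pool.Agent.Helper78.DT Pool.Agent.Helper78.JT
open Pool.Agent.Helper15.AF
open scoped Classical

theorem eleven_lt {x1 x2 r y3 y4 y5 y6 A B y : ℝ} (hB : 0 < y) (hy : 1 / (64 * y) = B)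
    (hA : A ≤ B) (a1 : r * x1 ≤ A) (a2 : r * x2 ≤ A) (b3 : y3 ≤ B) (b4 : y4 ≤ B)
    (b5 : y5 ≤ 6 / (64 * y)) (b6 : y6 ≤ B) :
    r * (x1 + x2) + (y3 + y4 + y5) + y6 < 1 / (2 * y) := by
  have e1 : 1 / (2 * y) = 32 * B := by
    rw [← hy]
    field_simp
    norm_num
  have e2 : 6 / (64 * y) = 6 * B := by
    rw [← hy]
    field_simp
  have e3 : 0 < B := by
    rw [← hy]
    positivity
  rw [e1]
  rw [e2] at b5
  nlinarith

theorem ex_a (c e : ℕ) : ∃ a : ℕ, 1 ≤ a ∧ 2 * a + 3 + 2 * (c + 3) * bb a e + 7 ≤ 2 ^ (a - 1) := by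
  obtain ⟨M, hM⟩ : ∃ M, M = (c + 3) * ((e + 1) * (e + 2)) + 1 := ⟨_, rfl⟩
  refine ⟨4 * M + 20, by omega, ?_⟩
  have e1 : 2 * M + 1 ≤ 2 ^ (2 * M) := Nat.lt_two_pow_self
  have e2 : 2 ^ (4 * M + 20 - 1) = (2 ^ (2 * M)) ^ 2 * 2 ^ 19 := by
    rw [← pow_mul, ← pow_add]
    congr 1
    omega
  rw [e2]
  have e3 : (2 * M + 1) ^ 2 ≤ (2 ^ (2 * M)) ^ 2 := Nat.pow_le_pow_left e1 2
  have e4 : 2 * (4 * M + 20) + 3 + 2 * (c + 3) * bb (4 * M + 20) e + 7 =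
      2 * M * (4 * M + 25) := by
    unfold bb
    have e5 : 2 * (c + 3) * ((e + 1) * (e + 2) * (4 * M + 20 + 5)) =
      2 * ((c + 3) * ((e + 1) * (e + 2))) * (4 * M + 25) := by ring
    rw [e5]
    have e6 : (c + 3) * ((e + 1) * (e + 2)) + 1 = M := hM.symm
    generalize (c + 3) * ((e + 1) * (e + 2)) = X at e6
    subst e6
    ring
  rw [e4]
  nlinarith

theorem pma (m1 : Pm1Stmt) (m2 : Pm2Stmt) (m3 : Pm3Stmt) (m4 : Pm4Stmt) : PmaStmt := by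
  intro c e
  have h0 : TljStmt := Pool.Agent.Helper3.JT.tlj
  obtain ⟨a, ha1, ha2⟩ := ex_a (cM c) e
  obtain ⟨β, hβ⟩ : ∃ β, β = 2 * bb a e * (cM c + 2) + 1 := ⟨_, rfl⟩
  obtain ⟨L1, h1⟩ := (Pool.Agent.Helper56.JT.pj1 h0) (cM c) e
  obtain ⟨L2, h2⟩ := (Pool.Agent.Helper56.JT.pj2 h0) (cM c) a e β hβ
  obtain ⟨L4, h4⟩ := (Pool.Agent.Helper79.JT.pj4 h0) (cM c) a e β
  obtain ⟨L6, h6⟩ := (Pool.Agent.Helper58.JT.pj6 h0 (Pool.Agent.Helper79.JT.pj4 h0)) (cM c) a e β ha1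
  obtain ⟨N1, m1⟩ := m1 c a e ha1
  obtain ⟨N2, m2⟩ := m2 c a e β ha1
  obtain ⟨N3, m3⟩ := m3 c a e β ha1
  obtain ⟨N4, m4⟩ := m4 c a e β ha1 ha2
  refine ⟨a, β, L1 + L2 + L4 + L6 + N1 + N2 + N3 + N4 + 1, fun L hL r hr => ?_⟩
  have a1 := h1 L (by omega) r hr
  have a2 := h2 L (by omega) r hr
  obtain ⟨b1, b2, -, -, -, -⟩ := h4 L (by omega)
  obtain ⟨c1, c2, c3, c4, c5, c6, c7, c8, c9, c10⟩ := h6 L (by omega)
  obtain ⟨-, -, -, d1⟩ := (h0 a e).1 L (by omega)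
  obtain ⟨-, ⟨-, k1⟩, k2, k3, k4⟩ := m1 L (by omega) r hr
  have p2 := m2 L (by omega) r hr
  have p3 := m3 L (by omega) r hr
  have p4 := m4 L (by omega) r hr
  have hL : 1 ≤ L := by omega
  have hLr : (1 : ℝ) ≤ (L : ℝ) := by exact_mod_cast hL
  have hL0 : (0 : ℝ) < (L : ℝ) ^ c := pow_pos (by linarith) c
  refine ⟨c1, b1, c2, c3, c4, c5, ?_, ?_, ?_, by omega, k1, k2, k3, (d1 r hr).2, c6, c7, c8, c9, c10, ?_⟩
  · unfold μj
    positivity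
  · unfold Jj
    exact pow_pos (by omega) _
  · unfold kVj
    have : 0 < L ^ (c + 6) := pow_pos (by omega) _
    omega
  · refine eleven_lt hL0 rfl ?_ a1 a2 p2 p3 p4 k4
    refine one_div_le_one_div_of_le (by positivity) ?_
    refine mul_le_mul_of_nonneg_left ?_ (by norm_num)
    exact pow_le_pow_right₀ hLr (by unfold cM; omega)

end Pool.Agent.Helper51.AF
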